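import Pool.Agent.Q18.W.SysMain
import Pool.Agent.Results.MP_ae0bd0_nt.MeanProduct

/-!
# The product of Birch and Swinnerton-Dyer over number fields in one sequence of windows

Let `K` be a number field, `E : y² = x³ + a x + b` an elliptic curve with `a, b ∈ 𝓞_K` and
`P(x) = ∏_{Nv ≤ x} #E(k_v)/Nv`, the product over the primes `v ∤ 6Δ`: the original product of Birch and
Swinnerton-Dyer with the sharp cut-off. Let `F` be a continuation of the `L`-series of `E/K` which is MEROMORPHIC at every
point with `Re s > 1` and at `s = 1`; nothing else is assumed on `F`: no growth condition, no functional equation, no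
continuation beyond the line `Re s = 1`. (By potential modularity such an `F` exists when `K` is totally real or a
CM field.) Let `0 < δ < 1`. All hypotheses on the product are made only for `x` in the windows `[Y^(1-δ), Y]`
of ONE unbounded set of values of `Y`.

* If `P(x) ≤ C (log x)^κ` there, and `F` has no real poles `> 1`, then `F` has no zeros and no poles with `Re s > 1`
  and `ord_{s=1} F ≤ κ`. (With `κ = rk E(K)`: the Riemann hypothesis for `E/K` and one half of the conjecture of Birch
  and Swinnerton-Dyer follow from a one-sided bound in one sequence of windows.)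
* If `P(x) ≤ C (log x)^κ` in one sequence of windows and `P(x) ≥ C' (log x)^κ'` in one sequence of windows, then `F`
  has no zeros and no poles with `Re s > 1`, and `κ' ≤ ord_{s=1} F ≤ κ`. Here real poles need not be excluded.
* If `P(x) ≤ exp (C x^c)` there, `c ≥ 0`, and `F` has no real poles `> 1 + c`, then `F` has no zeros and no poles
  with `Re s > 1 + c`.
* If `P*(x)/(log x)^ρ` tends to `A > 0` in one sequence of windows, where
  `P*(x) = exp (- ∑_{Nv^k ≤ x} (α_v^k + β_v^k)/(k Nv^k))` is the product with the prime powers, then `F` has no zeros and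
  no poles with `Re s > 1`, `ρ` is the order of `F` at `1`, and `A = e^(ρ γ) / |c|` with the leading coefficient `c` of
  `F` at `1`: the theorem of Goldfeld (1982, `K = ℚ`, all `x`) for all number fields and for one sequence of windows.

The proof (`Pool.Agent.Q18.W`): the means of the summatory function with the weights `u^k e^{-σu}`, `σ` fixed and
`k → ∞`, are the Taylor coefficients at `σ` of the logarithm of `F`; they are determined by the singularities
nearest to `σ`, and the weights are concentrated in a window of the given shape if `σ` is large.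
-/

set_option autoImplicit false

namespace Pool.Agent.Results.MP_cd906c_nt.OneSequenceOfWindows

open Filter Topology Set Complex NumberField IsDedekindDomain
open Pool.Agent.Results.MP_ae0bd0_nt.MeanProduct (Good norm points trace factor upTo product powerSum
  productStar rank)

variable {K : Type} [Field K] [NumberField K]

/-- `F` is a continuation of the `L`-series `∏_v factor v` (`Re s > 3/2`), meromorphic at every point with
`Re s > 1` and at `1`. -/
def Continues (a b : 𝓞 K) (F : ℂ → ℂ) : Prop :=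
  (∀ s : ℂ, 1 < s.re → MeromorphicAt F s) ∧ MeromorphicAt F 1 ∧
  ∀ s : ℂ, (3 : ℝ) / 2 < s.re →
    HasProd (fun v : {v : HeightOneSpectrum (𝓞 K) // Good a b v} => factor a b v.1 s) (F s)

/-- `F` has no zeros and no poles with `Re s > 1 + c`. -/
def Free (F : ℂ → ℂ) (c : ℝ) : Prop := ∀ s : ℂ, 1 + c < s.re → meromorphicOrderAt F s = 0

/-- `F` has no real poles `x > 1 + c`. -/
def NoRealPoles (F : ℂ → ℂ) (c : ℝ) : Prop := ∀ x : ℝ, 1 + c < x → 0 ≤ meromorphicOrderAt F (x : ℂ)

/-- `p x` holds for all `x` in the window `[Y^(1-δ), Y]`, for arbitrarily large `Y`. -/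
def Windows (δ : ℝ) (p : ℝ → Prop) : Prop :=
  ∃ᶠ Y : ℝ in atTop, ∀ x : ℝ, Y ^ (1 - δ) ≤ x → x ≤ Y → p x

/-! ### translation -/

open Pool.Agent.Results.MP_ae0bd0_nt.MeanProduct (NN factor_eq real_sums log_star star_pos log_product
  mero_shift)
open Pool.Agent.TH942.ES (GoodV alV curve_sys zv xv)
open Pool.Agent.TH270.MS (Pl)
open Pool.Agent.Q5.MS (Pv)
open Pool.Agent.Q18.W (Win Dw)

theorem prod_pos (a b : 𝓞 K) (y : ℝ) : 0 < product a b y := by
  classical
  have E := curve_sys a b
  have hfin : (upTo a b y).Finite := by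
    have h1 := (E.fin_le y).image Subtype.val
    refine h1.subset fun v hv => ?_
    exact ⟨⟨v, hv.1⟩, hv.2, rfl⟩
  have h2 : product a b y = ∏ v ∈ hfin.toFinset, ((points a b v : ℝ) + 1) / norm v :=
    finprod_mem_eq_finite_toFinset_prod _ hfin
  rw [h2]
  refine Finset.prod_pos fun v _ => ?_
  have h3 : (2 : ℝ) ≤ norm v := by exact_mod_cast Pool.Agent.H921R2.TatePole.two_le_nm v
  positivity

/-- the bounds in logarithmic form -/
theorem log_up {P C κ l : ℝ} (hP : 0 < P) (hl : 0 < l) (h : P ≤ C * l ^ κ) :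
    Real.log P ≤ κ * Real.log l + Real.log (max C 1) := by
  have hC : 0 < max C 1 := lt_max_of_lt_right one_pos
  have hp := Real.rpow_pos_of_pos hl κ
  have h1 : P ≤ max C 1 * l ^ κ := h.trans (mul_le_mul_of_nonneg_right (le_max_left _ _) hp.le)
  have h2 := Real.log_le_log hP h1
  rw [Real.log_mul hC.ne' hp.ne', Real.log_rpow hl] at h2
  linarith

theorem log_down {P C κ l : ℝ} (hC : 0 < C) (hl : 0 < l) (h : C * l ^ κ ≤ P) :
    κ * Real.log l + Real.log C ≤ Real.log P := by
  have hp := Real.rpow_pos_of_pos hl κ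
  have h2 := Real.log_le_log (mul_pos hC hp) h
  rw [Real.log_mul hC.ne' hp.ne', Real.log_rpow hl] at h2
  linarith

theorem win_up (a b : 𝓞 K) {δ κ C : ℝ} (h1 : δ < 1) (h : Windows δ fun x => product a b x ≤ C * Real.log x ^ κ) :
    Win δ fun x => Pv (NN a b) (alV a b) x ≤ κ * Real.log (Real.log x) + Real.log (max C 1) := by
  refine Win.mono h1 h ?_
  filter_upwards [eventually_gt_atTop 1] with x hx h2
  rw [← log_product]
  exact log_up (prod_pos a b x) (Real.log_pos hx) h2

theorem win_down (a b : 𝓞 K) {δ κ C : ℝ} (h1 : δ < 1) (hC : 0 < C)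
    (h : Windows δ fun x => C * Real.log x ^ κ ≤ product a b x) :
    Win δ fun x => κ * Real.log (Real.log x) + Real.log C ≤ Pv (NN a b) (alV a b) x := by
  refine Win.mono h1 h ?_
  filter_upwards [eventually_gt_atTop 1] with x hx h2
  rw [← log_product]
  exact log_down hC (Real.log_pos hx) h2

theorem data {a b : 𝓞 K} {F : ℂ → ℂ} (hF : Continues a b F) :
    Dw (NN a b) (alV a b) (fun s => F (1 + s)) := by
  obtain ⟨h1, h2, hL⟩ := hF
  have ha : ∀ s : ℂ, AnalyticAt ℂ (fun s : ℂ => 1 + s) s := fun s => by fun_prop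
  refine ⟨curve_sys a b, real_sums a b, fun s hs => ?_, ?_, fun s hs => ?_⟩
  · exact MeromorphicAt.comp_analyticAt (h1 (1 + s) (by simpa using hs)) (ha s)
  · exact MeromorphicAt.comp_analyticAt (f := F) (g := fun s : ℂ => 1 + s) (by simpa using h2) (ha 0)
  · have h1 := hL (1 + s) (by rw [Complex.add_re, Complex.one_re]; linarith)
    have h3 : (fun v : {v : HeightOneSpectrum (𝓞 K) // Good a b v} => factor a b v.1 (1 + s)) =
        fun v => ∏ i, (1 - zv (NN a b) (alV a b) v i * xv (NN a b) v s)⁻¹ := by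
      funext v
      have h4 := factor_eq a b v (1 + s)
      rwa [add_sub_cancel_left] at h4
    rw [h3] at h1
    exact h1.tprod_eq.symm

theorem ord_shift (F : ℂ → ℂ) (s : ℂ) :
    meromorphicOrderAt (fun s => F (1 + s)) s = meromorphicOrderAt F (1 + s) := by
  have h1 : AnalyticAt ℂ (fun s : ℂ => 1 + s) s := by fun_prop
  have h2 : deriv (fun s : ℂ => 1 + s) s ≠ 0 := by simp
  exact meromorphicOrderAt_comp_of_deriv_ne_zero (f := F) h1 h2

theorem free_shift {F : ℂ → ℂ} {c : ℝ} (h : ∀ s : ℂ, c < s.re → meromorphicOrderAt (fun s => F (1 + s)) s = 0) :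
    Free F c := by
  intro s hs
  have h2 := h (s - 1) (by rw [Complex.sub_re, Complex.one_re]; linarith)
  rwa [ord_shift, add_sub_cancel] at h2

theorem real_shift {F : ℂ → ℂ} {c : ℝ} (h : NoRealPoles F c) :
    ∀ x : ℝ, c < x → 0 ≤ meromorphicOrderAt (fun s => F (1 + s)) (x : ℂ) := by
  intro x hx
  rw [ord_shift]
  have := h (1 + x) (by linarith)
  push_cast at this
  exact this

theorem coef_shift {F : ℂ → ℂ} {m : ℤ} {c : ℂ}
    (h : Tendsto (fun s : ℂ => F s / (s - 1) ^ m) (𝓝[≠] 1) (𝓝 c)) :
    Tendsto (fun s : ℂ => F (1 + s) / s ^ m) (𝓝[≠] 0) (𝓝 c) := by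
  have ht : Tendsto (fun s : ℂ => 1 + s) (𝓝[≠] 0) (𝓝[≠] 1) := by
    refine tendsto_nhdsWithin_iff.2 ⟨?_, ?_⟩
    · have : Continuous fun s : ℂ => 1 + s := by fun_prop
      have h2 := this.tendsto 0
      rw [add_zero] at h2
      exact h2.mono_left nhdsWithin_le_nhds
    · filter_upwards [self_mem_nhdsWithin] with s hs
      have hs' : s ≠ 0 := hs
      simpa using hs'
  refine (h.comp ht).congr fun s => ?_
  simp

/-- **The product of Birch and Swinnerton-Dyer over number fields in one sequence of windows.** -/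
theorem result (a b : 𝓞 K) (_hΔ : 4 * a ^ 3 + 27 * b ^ 2 ≠ 0) (F : ℂ → ℂ) (hF : Continues a b F)
    (δ : ℝ) (h0 : 0 < δ) (h1 : δ < 1) :
    (∀ κ C : ℝ, NoRealPoles F 0 → (Windows δ fun x => product a b x ≤ C * Real.log x ^ κ) →
      Free F 0 ∧ ∃ m : ℤ, meromorphicOrderAt F 1 = m ∧ (m : ℝ) ≤ κ) ∧
    (∀ κ κ' C C' : ℝ, 0 < C' → (Windows δ fun x => product a b x ≤ C * Real.log x ^ κ) →
      (Windows δ fun x => C' * Real.log x ^ κ' ≤ product a b x) →
      Free F 0 ∧ ∃ m : ℤ, meromorphicOrderAt F 1 = m ∧ κ' ≤ m ∧ (m : ℝ) ≤ κ) ∧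
    ((∃ C C' : ℝ, 0 < C' ∧ Windows δ fun x => C' * Real.log x ^ rank a b ≤ product a b x ∧
      product a b x ≤ C * Real.log x ^ rank a b) →
      Free F 0 ∧ meromorphicOrderAt F 1 = (rank a b : ℤ)) ∧
    (∀ c C : ℝ, 0 ≤ c → NoRealPoles F c →
      (Windows δ fun x => product a b x ≤ Real.exp (C * x ^ c)) → Free F c) ∧
    (∀ ρ A : ℝ, 0 < A →
      (∀ ε : ℝ, 0 < ε → Windows δ fun x => |productStar a b x / Real.log x ^ ρ - A| < ε) →
      Free F 0 ∧ ∃ m : ℤ, ρ = m ∧ meromorphicOrderAt F 1 = m ∧
        ∀ c : ℂ, Tendsto (fun s : ℂ => F s / (s - 1) ^ m) (𝓝[≠] 1) (𝓝 c) →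
          A = Real.exp (m * Real.eulerMascheroniConstant) / ‖c‖) := by
  have H := data hF
  have hord0 : meromorphicOrderAt (fun s => F (1 + s)) 0 = meromorphicOrderAt F 1 := mero_shift F
  have two : ∀ κ κ' C C' : ℝ, 0 < C' → (Windows δ fun x => product a b x ≤ C * Real.log x ^ κ) →
      (Windows δ fun x => C' * Real.log x ^ κ' ≤ product a b x) →
      Free F 0 ∧ ∃ m : ℤ, meromorphicOrderAt F 1 = m ∧ κ' ≤ m ∧ (m : ℝ) ≤ κ := by
    intro κ κ' C C' hC' h2 h3
    obtain ⟨f1, m, f2, f3, f4⟩ := H.two_sided h0 h1 (win_up a b h1 h2) h0 h1 (win_down a b h1 hC' h3)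
    rw [hord0] at f2
    exact ⟨free_shift f1, m, f2, f4, f3⟩
  refine ⟨fun κ C hp h2 => ?_, two, ?_, fun c C hc hp h2 => ?_, fun ρ A hA h2 => ?_⟩
  · obtain ⟨f1, m, f2, f3⟩ := H.one_sided (real_shift hp) h0 h1 (win_up a b h1 h2)
    rw [hord0] at f2
    exact ⟨free_shift f1, m, f2, f3⟩
  · rintro ⟨C, C', hC', h2⟩
    obtain ⟨f1, m, f2, f3, f4⟩ := two (rank a b) (rank a b) C C' hC'
      (Win.mono h1 h2 (Eventually.of_forall fun x hx => by simpa using hx.2))
      (Win.mono h1 h2 (Eventually.of_forall fun x hx => by simpa using hx.1))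
    refine ⟨f1, ?_⟩
    have : m = (rank a b : ℤ) := by
      have : (m : ℝ) = ((rank a b : ℤ) : ℝ) := by push_cast; exact le_antisymm f4 f3
      exact_mod_cast this
    rw [f2, this]
  · refine free_shift (H.half_plane hc (real_shift hp) h0 h1 (C := |C|) (abs_nonneg _) ?_)
    refine Win.mono h1 h2 ?_
    filter_upwards [eventually_gt_atTop 0] with x hx h3
    rw [← log_product]
    have h4 := Real.log_le_log (prod_pos a b x) h3
    rw [Real.log_exp] at h4
    refine h4.trans ?_
    have := Real.rpow_nonneg hx.le c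
    gcongr
    exact le_abs_self C
  · -- the leading coefficient
    have hw : ∀ ε : ℝ, 0 < ε → ε < A →
        (Win δ fun x => -Pl (NN a b) (alV a b) x ≤ ρ * Real.log (Real.log x) + Real.log (A + ε)) ∧
        (Win δ fun x => ρ * Real.log (Real.log x) + Real.log (A - ε) ≤ -Pl (NN a b) (alV a b) x) := by
      intro ε hε hεA
      have h3 := h2 ε hε
      constructor
      · refine Win.mono h1 h3 ?_
        filter_upwards [eventually_gt_atTop 1] with x hx h4
        have hl := Real.log_pos hx
        have hp := Real.rpow_pos_of_pos hl ρ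
        rw [← log_star]
        have h5 := (abs_lt.1 h4).2
        have h6 : productStar a b x ≤ (A + ε) * Real.log x ^ ρ := by
          rw [← div_le_iff₀ hp]
          linarith
        have h7 := Real.log_le_log (star_pos a b x) h6
        rw [Real.log_mul (by linarith) hp.ne', Real.log_rpow hl] at h7
        linarith
      · refine Win.mono h1 h3 ?_
        filter_upwards [eventually_gt_atTop 1] with x hx h4
        have hl := Real.log_pos hx
        have hp := Real.rpow_pos_of_pos hl ρ
        rw [← log_star]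
        have h5 := (abs_lt.1 h4).1
        have h6 : (A - ε) * Real.log x ^ ρ ≤ productStar a b x := by
          rw [← le_div_iff₀ hp]
          linarith
        exact log_down (by linarith) hl h6
    obtain ⟨w1, w2⟩ := hw (A / 2) (by linarith) (by linarith)
    obtain ⟨f1, m, f2, f3, f4⟩ := H.two_star h0 h1 w1 h0 h1 w2
    have hρ : ρ = m := le_antisymm f4 f3
    have f2' := f2
    rw [hord0] at f2'
    refine ⟨free_shift f1, m, hρ, f2', fun c hc => ?_⟩
    have hcs := coef_shift hc
    have hc0 : c ≠ 0 := Dw.lead_ne H.mer0 f2 hcs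
    have hcp : 0 < ‖c‖ := norm_pos_iff.2 hc0
    set G : ℝ := Real.exp (m * Real.eulerMascheroniConstant) with hG
    have hGp : 0 < G := Real.exp_pos _
    have key : ∀ ε : ℝ, 0 < ε → ε < A → G / ‖c‖ ≤ A + ε ∧ A - ε ≤ G / ‖c‖ := by
      intro ε hε hεA
      obtain ⟨w3, w4⟩ := hw ε hε hεA
      rw [hρ] at w3 w4
      have l1 := (H.lead h0 h1 f2 f1 (C := Real.log (A + ε)) hcs).1 w3
      have l2 := (H.lead h0 h1 f2 f1 (C := Real.log (A - ε)) hcs).2 w4
      rw [Real.exp_sub, Real.exp_log (by linarith)] at l1 l2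
      constructor
      · rw [div_le_iff₀ hcp]
        rw [div_le_iff₀ (by linarith)] at l1
        linarith
      · rw [le_div_iff₀ hcp]
        rw [le_div_iff₀ (by linarith)] at l2
        linarith
    refine le_antisymm ?_ ?_
    · refine le_of_forall_pos_le_add fun ε hε => ?_
      rcases lt_or_ge ε A with h | h
      · linarith [(key ε hε h).2]
      · have : 0 < G / ‖c‖ := by positivity
        linarith
    · refine le_of_forall_pos_le_add fun ε hε => ?_
      rcases lt_or_ge ε A with h | h
      · linarith [(key ε hε h).1]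
      · linarith [(key (A / 2) (by linarith) (by linarith)).1]

end Pool.Agent.Results.MP_cd906c_nt.OneSequenceOfWindows
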