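import Pool.Agent.Q5.AP.Win
import Pool.Agent.Results.MP_f50388_nt.WindowLaw

/-!
# The rank conjecture over number fields and the exact mean square of ONE window of the product

Let `K` be a number field, `E : y² = x³ + a x + b` an elliptic curve with `a, b ∈ 𝓞_K`, and let `F` be a continuation
of the `L`-series of `E/K` (product over the primes `v ∤ 6Δ`) to a half plane `Re s > 1 - η`, analytic except
perhaps for a pole at `s = 1`, of polynomial growth. Let `m_t` be the order of vanishing of `F` at `1 + it`. Fix ONE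
exponent `0 < l < 1` and let

`W_l(y) = ∏_{y^l < Nv ≤ y} #E(k_v)/Nv`,  `W*_l(y) = P*(y)/P*(y^l) = exp (- ∑_{y^l < Nv^k ≤ y} (α_v^k + β_v^k)/(k Nv^k))`

be the parts of the product of Birch and Swinnerton-Dyer in the window `(y^l, y]`, over the primes and over the prime
powers. For every real `ρ` the following are equivalent:

* `ord_{s=1} F = ρ`, and `F` has no zeros with `Re s > 1`;
* `(log Y)⁻¹ ∫_e^Y (log y · (log W*_l(y) - ρ log (1/l)))² dy/y` is bounded for large `Y`;
* the sum `V_l = ∑_{t ≠ 0} (m_t - m_{t/l})²/t²` converges and these means tend to `V_l`.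

In this case for every real `t ≠ 0` the means `(log Y)⁻¹ ∫_e^Y log y · (log W*_l(y) - ρ log (1/l)) y^(-it) dy/y` tend to
`-i (m_t - m_{t/l})/t` (and to `0` for `t = 0`), and `m_t = ∑_{j < n} (m_{t l^j} - m_{t l^{j+1}})` for all large `n`: one
window determines all zeros on the line `Re s = 1` with their multiplicities. Moreover `V_l = 0` only if `F` has no
zeros `1 + it`, `t ≠ 0`.

The same holds for `W_l` if `log y · (q(y) - q(y^l)) → 0` with `q(y) = ∑_{√y < Nv ≤ y} (a_v² - 2 Nv)/(2 Nv²)`, a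
consequence of the theorem of Rankin and Selberg with a zero-free region; NO constant (`√2` for `K = ℚ`) enters.

So the rank part of the conjecture together with the Riemann hypothesis for `E/K` is equivalent to the statement that
for one `l` the formula `W*_l(y) ≈ (1/l)^{rk E(K)}` has an error `O(1/log y)` in square mean, and in this case the
mean square of the error is known exactly. The leading coefficient of `F` does not enter.

In `WindowLaw` of problem `MP_f50388_nt` the windows are studied in logarithmic mean, with the error `o(1)` and without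
coefficients. The full product, with the leading coefficient as an additional parameter, is in `ExactMeanSquare` of
problem `MP_9ab903_nt`. New are the correlation theorem for functions with the formula of Parseval
(`Pool.Agent.Q5.AP.Par.cross`), which gives the mean square of `f(u) - f(lu)/l`, and the criterion for the windows
(`Pool.Agent.Q5.AP.Win`).
-/

set_option autoImplicit false

namespace Pool.Agent.Results.MP_cd906c_nt.ExactWindows

open Filter Topology Set Complex NumberField IsDedekindDomain MeasureTheory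
open Pool.Agent.Results.MP_ae0bd0_nt.MeanProduct (Good norm points trace factor upTo product productStar
  Tempered OrderRH rank)
open Pool.Agent.Results.MP_1a91b9_nt.MeanSquareLeading (squares)
open Pool.Agent.Results.MP_f50388_nt.WindowLaw (between window NoZeros)

variable {K : Type} [Field K] [NumberField K]

/-- `W*_l(y) = P*(y)/P*(y^l)`. -/
noncomputable def windowStar (a b : 𝓞 K) (l y : ℝ) : ℝ := productStar a b y / productStar a b (y ^ l)

/-- `log W*_l(y) - ρ log (1/l)` -/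
noncomputable def errStar (a b : 𝓞 K) (ρ l y : ℝ) : ℝ :=
  Real.log (windowStar a b l y) - ρ * Real.log (1 / l)

/-- `log W_l(y) - ρ log (1/l)` -/
noncomputable def err (a b : 𝓞 K) (ρ l y : ℝ) : ℝ :=
  Real.log (window a b l y) - ρ * Real.log (1 / l)

/-- The order of vanishing of `F` at `1 + it`. -/
noncomputable def mult (F : ℂ → ℂ) (t : ℝ) : ℕ := (analyticOrderAt F (1 + t * I)).toNat

/-- `(log Y)⁻¹ ∫_e^Y (log y · δ(y))² dy/y`. -/
noncomputable def meanSquare (δ : ℝ → ℝ) (Y : ℝ) : ℝ :=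
  (∫ y in Real.exp 1..Y, (Real.log y * δ y) ^ 2 / y) / Real.log Y

/-- `(log Y)⁻¹ ∫_e^Y (log y · δ(y)) y^(-it) dy/y`. -/
noncomputable def coefficient (δ : ℝ → ℝ) (t Y : ℝ) : ℂ :=
  (∫ y in Real.exp 1..Y, ((Real.log y * δ y : ℝ) : ℂ) * (y : ℂ) ^ (-(t * I)) / (y : ℂ)) /
    (Real.log Y : ℂ)

/-- `∫_e^Y (log y · δ(y))² dy/y ≤ B log Y` for some `B` and all large `Y`. -/
def BoundedMeanSquare (δ : ℝ → ℝ) : Prop := ∃ B : ℝ, ∀ᶠ Y : ℝ in atTop,
  ∫ y in Real.exp 1..Y, (Real.log y * δ y) ^ 2 / y ≤ B * Real.log Y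

/-- `V_l = ∑_{t ≠ 0} (m_t - m_{t/l})²/t²` converges (the term with `t = 0` is `0`), it is the limit of the mean
squares, and it is `0` only if `F` has no zeros `1 + it`, `t ≠ 0`. -/
def WindowSquareLaw (F : ℂ → ℂ) (l : ℝ) (δ : ℝ → ℝ) : Prop :=
  ∃ V : ℝ, HasSum (fun t : ℝ => (((mult F t : ℝ) - mult F (t / l)) / t) ^ 2) V ∧
    Tendsto (meanSquare δ) atTop (𝓝 V) ∧ (V = 0 ↔ ∀ t : ℝ, t ≠ 0 → mult F t = 0)

/-- For every real `t` the means of `log y · δ(y) y^(-it)` tend to `-i (m_t - m_{t/l})/t` (`0` for `t = 0`), and these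
numbers determine the multiplicities `m_t`, `t ≠ 0`. -/
def ReadsZeros (F : ℂ → ℂ) (l : ℝ) (δ : ℝ → ℝ) : Prop :=
  (∀ t : ℝ, Tendsto (coefficient δ t) atTop
    (𝓝 (-((((mult F t : ℂ) - mult F (t / l)) * I) / t)))) ∧
  ∀ t : ℝ, t ≠ 0 → ∀ᶠ n : ℕ in atTop,
    (mult F t : ℝ) = ∑ j ∈ Finset.range n, ((mult F (t * l ^ j) : ℝ) - mult F (t * l ^ (j + 1)))

/-- The criterion for one window, with the exact mean square and the zeros. -/
def Criterion (F : ℂ → ℂ) (ρ l : ℝ) (δ : ℝ → ℝ) : Prop :=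
  List.TFAE [OrderRH F ρ, BoundedMeanSquare δ, WindowSquareLaw F l δ] ∧ (OrderRH F ρ → ReadsZeros F l δ)

/-! ### translation -/

open Pool.Agent.Results.MP_ae0bd0_nt.MeanProduct (NN data log_star star_pos zeros_shift mero_shift)
open Pool.Agent.Results.MP_f50388_nt.WindowLaw (wv_eq)
open Pool.Agent.TH942.ES (alV)
open Pool.Agent.TH270.MS (Mc)
open Pool.Agent.Q5.MS (WL WV Sq)
open Pool.Agent.Q5.AP (WinLaw win_pack win_packP mc_iso telescope win_pos)

theorem wl_eq' (a b : 𝓞 K) (ρ : ℝ) {l : ℝ} (y : ℝ) :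
    errStar a b ρ l y = -WL (NN a b) (alV a b) ρ l y := by
  unfold errStar windowStar WL
  rw [Real.log_div (star_pos a b y).ne' (star_pos a b (y ^ l)).ne', log_star, log_star, one_div,
    Real.log_inv]
  ring

/-- from the general statement -/
theorem criterion_of {F : ℂ → ℂ} {ρ l : ℝ} {δ : ℝ → ℝ} (hl : 0 < l) (hl1 : l < 1)
    (hiso : ∃ r : ℝ, 0 < r ∧ ∀ t : ℝ, t ≠ 0 → |t| < r → mult F t = 0)
    (h : WinLaw (OrderRH F ρ) (mult F) l δ) : Criterion F ρ l δ := by
  obtain ⟨r, hr, hiso⟩ := hiso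
  obtain ⟨t, rd⟩ := h
  refine ⟨?_, fun hp => ⟨rd hp, fun t' ht' => telescope hl hl1 hr hiso ht'⟩⟩
  tfae_have 1 ↔ 2 := t.out 0 1
  tfae_have 1 ↔ 3 := by
    refine (t.out 0 2).trans (exists_congr fun V => ?_)
    constructor
    · rintro ⟨h1, h2⟩
      exact ⟨h1, h2, (win_pos hl hl1 hr hiso h1).2⟩
    · rintro ⟨h1, h2, -⟩
      exact ⟨h1, h2⟩
  tfae_finish

/-- **The rank conjecture and the exact mean square of one window.** -/
theorem result (a b : 𝓞 K) (_hΔ : 4 * a ^ 3 + 27 * b ^ 2 ≠ 0) (F : ℂ → ℂ) (hF : Tempered a b F)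
    (l : ℝ) (hl : 0 < l) (hl1 : l < 1) :
    (∀ ρ : ℝ, Criterion F ρ l (errStar a b ρ l)) ∧
    (Tendsto (fun y : ℝ => Real.log y * (squares a b y - squares a b (y ^ l))) atTop (𝓝 0) →
      ∀ ρ : ℝ, Criterion F ρ l (err a b ρ l)) ∧
    ((meromorphicOrderAt F 1 = (rank a b : ℤ) ∧ NoZeros F) ↔
      BoundedMeanSquare (errStar a b (rank a b) l)) := by
  obtain ⟨G₀, k, κ, η, C, H⟩ := data hF
  have hm : ∀ t : ℝ, Pool.Agent.Q5.BP.mu (fun s => F (1 + s)) t = mult F t :=
    Pool.Agent.Q5.BP.mu_shift F 1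
  have hiso : ∃ r : ℝ, 0 < r ∧ ∀ t : ℝ, t ≠ 0 → |t| < r → mult F t = 0 := by
    obtain ⟨r, hr, h⟩ := mc_iso H
    exact ⟨r, hr, fun t ht htr => by rw [← hm t]; exact h t ht htr⟩
  have h0 : ∀ ρ : ℝ, OrderRH F ρ ↔ ((∀ s : ℂ, 0 < s.re → F (1 + s) ≠ 0) ∧
      ∃ m : ℤ, ρ = m ∧ meromorphicOrderAt (fun s => F (1 + s)) 0 = m) := by
    intro ρ
    rw [mero_shift, zeros_shift]
    exact and_comm
  have main : ∀ ρ : ℝ, Criterion F ρ l (errStar a b ρ l) := fun ρ =>
    criterion_of hl hl1 hiso (win_pack H ρ hl hl1 (h0 ρ) hm fun y _ => wl_eq' a b ρ y)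
  refine ⟨main, fun hS ρ => ?_, ?_⟩
  · refine criterion_of hl hl1 hiso (win_packP H ρ hl hl1 (h0 ρ) hm ?_ fun y hy => ?_)
    · rw [← Pool.Agent.Results.MP_1a91b9_nt.MeanSquareLeading.squares_eq]
      exact hS
    · exact (wv_eq a b ρ hl1 hy).symm
  · have h1 := (main (rank a b)).1.out 0 1
    rw [← h1]
    unfold OrderRH
    refine and_congr_left fun _ => ⟨fun h => ⟨rank a b, by push_cast; rfl, h⟩, ?_⟩
    rintro ⟨m, hm, h⟩
    have h3 : ((rank a b : ℤ) : ℝ) = (m : ℝ) := by
      rw [← hm]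
      push_cast
      rfl
    have h4 : (rank a b : ℤ) = m := by exact_mod_cast h3
    rw [h4]
    exact h

end Pool.Agent.Results.MP_cd906c_nt.ExactWindows
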