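import Pool.Agent.Q5.RN.Law
import Pool.Agent.TH942.ES.NF

/-!
# A numerical form of the conjecture of Birch and Swinnerton-Dyer over number fields

Let `K` be a number field, `E : y² = x³ + a x + b` an elliptic curve, `a, b ∈ 𝓞 K`, and for the primes `v`
which do not divide `6 (4 a³ + 27 b²)` let `N_v` be the number of the affine points modulo `v`. Let `F` be a
MEROMORPHIC continuation of the incomplete `L`-series of `E/K` to the complex plane. (If the `L`-series is
entire, this is the function of the question. For the fields `K` which are totally real or CM a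
meromorphic continuation is known for all `E`, by potential modularity, while the holomorphy is not.)
Nothing is assumed about the zeros and the poles of `F`, and no functional equation is used.

For real `τ` put

`W_τ(X) = ∑_v log ((N_v + 1)/N v) / Γ(1 + (1 + iτ) log N v / log X)`,

an absolutely convergent series for `X > 1`; with the sharp cut-off `N v ≤ X` instead of the `Γ`-weights these
are the logarithms of the products by which Birch and Swinnerton-Dyer found their conjecture.

* If `F` has no zeros and no poles on the ray `{1 + (1 + iτ) x : x > 0}`, then `W_τ(X) = r log log X + O(1)`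
  where `r` is the order of `F` at `1` (positive, zero or negative). For every `B` this is the case for all but
  finitely many `τ` in `[-B, B]`.
* In the other directions, let `1 + (1 + iτ) x` be the last zero or pole, `m` its order: then
  `W_τ(X) ∼ m ∫_0^∞ (X^{xu} - 1) du / (u Γ(1 + u))`, and `|Re W_τ(X)| ≥ exp (X^c)` for `c < x` and large `X`.

So `F` is holomorphic at `1` and the rank form `ord_{s=1} F = rank E(K)` holds if and only if
`Re W_τ(X_n) / log log X_n → rank E(K)` for one `τ` and one sequence `X_n → ∞`, and then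
`W_τ(X) = rank log log X + O(1)` in all free directions.

For `K = ℚ` and entire `F` this is the file `ExactCriterion` of problem `MP_696deb_nt` (helper524 and helper189);
the number field and the poles are new. The proof is given for arbitrary Euler products of finite
degree over a set of primes with an upper bound of Mertens type (`Pool.Agent.Q5.RN`), with the local
estimates and Hasse's bound over finite fields of `Pool.Agent.TH942.ES` (helper942).
-/

set_option autoImplicit false

open Filter Topology Set Complex NumberField IsDedekindDomain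

namespace Pool.Agent.Results.MP_cd906c_nt.NumericalRankForm

variable {K : Type} [Field K] [NumberField K]

/-- The prime `v` does not divide `6 (4 a³ + 27 b²)`. -/
def Good (a b : 𝓞 K) (v : HeightOneSpectrum (𝓞 K)) : Prop :=
  6 * (4 * a ^ 3 + 27 * b ^ 2) ∉ v.asIdeal

/-- `N_v`: the number of the pairs `(x, y)` modulo `v` with `y² = x³ + a x + b`. -/
noncomputable def pts (a b : 𝓞 K) (v : HeightOneSpectrum (𝓞 K)) : ℕ :=
  Nat.card {P : (𝓞 K ⧸ v.asIdeal) × (𝓞 K ⧸ v.asIdeal) //
    P.2 ^ 2 = P.1 ^ 3 + Ideal.Quotient.mk v.asIdeal a * P.1 + Ideal.Quotient.mk v.asIdeal b}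

/-- The norm `N v`. -/
noncomputable def norm (v : HeightOneSpectrum (𝓞 K)) : ℕ := Ideal.absNorm v.asIdeal

/-- `F` is a meromorphic function on the complex plane which for `Re s > 3/2` is the incomplete `L`-series
`∏_v (1 - a_v N v^{-s} + N v^{1 - 2s})⁻¹`, `a_v = N v - N_v`, over the good primes `v`. -/
def IsLSeries (a b : 𝓞 K) (F : ℂ → ℂ) : Prop :=
  (∀ s : ℂ, MeromorphicAt F s) ∧ ∀ s : ℂ, (3 : ℝ) / 2 < s.re →
    HasProd (fun v : {v : HeightOneSpectrum (𝓞 K) // Good a b v} =>
      (1 - ((norm v.1 : ℂ) - pts a b v.1) * (norm v.1 : ℂ) ^ (-s) + (norm v.1 : ℂ) ^ (1 - 2 * s))⁻¹)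
      (F s)

/-- The term of `W_τ(X)` at `v`. -/
noncomputable def term (a b : 𝓞 K) (τ X : ℝ) (v : {v : HeightOneSpectrum (𝓞 K) // Good a b v}) : ℂ :=
  (Real.log (((pts a b v.1 : ℝ) + 1) / norm v.1) : ℂ) /
    Complex.Gamma (1 + (1 + τ * I) * (Real.log (norm v.1) / Real.log X))

/-- `W_τ(X)`. -/
noncomputable def W (a b : 𝓞 K) (τ X : ℝ) : ℂ := ∑' v, term a b τ X v

/-- `F` has neither zeros nor poles on the ray `{1 + (1 + iτ) x : x > 0}`. -/
def Free (F : ℂ → ℂ) (τ : ℝ) : Prop :=
  ∀ x : ℝ, 0 < x → meromorphicOrderAt F (1 + (1 + τ * I) * x) = 0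

/-- `∫_0^∞ (e^{yu} - 1) / (u Γ(1 + u)) du`. -/
noncomputable def grow (y : ℝ) : ℝ :=
  ∫ u in Set.Ioi (0 : ℝ), (Real.exp (y * u) - 1) / (u * Real.Gamma (1 + u))

open scoped Classical in
/-- The rank of the group of the `K`-rational points of `y² = x³ + a x + b`. -/
noncomputable def rank (a b : 𝓞 K) : ℕ :=
  Module.finrank ℤ
    (WeierstrassCurve.Affine.Point
      (WeierstrassCurve.toAffine
        ({ a₁ := 0, a₂ := 0, a₃ := 0, a₄ := (a : K), a₆ := (b : K) } : WeierstrassCurve K)))

theorem loglog_tendsto : Tendsto (fun X : ℝ => Real.log (Real.log X)) atTop atTop :=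
  Real.tendsto_log_atTop.comp Real.tendsto_log_atTop

theorem quot_of_bdd {f : ℝ → ℂ} {r M : ℝ}
    (h : ∀ᶠ X : ℝ in atTop, ‖f X - r * (Real.log (Real.log X) : ℂ)‖ ≤ M) :
    Tendsto (fun X : ℝ => (f X).re / Real.log (Real.log X)) atTop (𝓝 r) := by
  rw [tendsto_iff_norm_sub_tendsto_zero]
  refine squeeze_zero' (g := fun X => M * (Real.log (Real.log X))⁻¹)
    (Eventually.of_forall fun X => norm_nonneg _) ?_ ?_
  · filter_upwards [h, loglog_tendsto.eventually (eventually_gt_atTop 0)] with X h5 h6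
    have h7 : (f X).re / Real.log (Real.log X) - r =
        (f X - r * (Real.log (Real.log X) : ℂ)).re * (Real.log (Real.log X))⁻¹ := by
      have : (f X - r * (Real.log (Real.log X) : ℂ)).re = (f X).re - r * Real.log (Real.log X) := by
        rw [Complex.sub_re, ← Complex.ofReal_mul, Complex.ofReal_re]
      rw [this]
      field_simp
    rw [h7, norm_mul, Real.norm_eq_abs, Real.norm_eq_abs, abs_inv, abs_of_pos h6]
    exact mul_le_mul_of_nonneg_right ((Complex.abs_re_le_norm _).trans h5) (inv_nonneg.2 h6.le)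
  · have := loglog_tendsto.inv_tendsto_atTop.const_mul M
    simpa using this

theorem quot_of_big {f : ℝ → ℂ} {c : ℝ} (hc : 0 < c)
    (h : ∀ᶠ X : ℝ in atTop, Real.exp (X ^ c) ≤ |(f X).re|) :
    Tendsto (fun X : ℝ => |(f X).re| / Real.log (Real.log X)) atTop atTop := by
  have h6 : Tendsto (fun X : ℝ => X ^ c / Real.log X) atTop atTop := by
    have h7 : (fun X : ℝ => Real.log X) =o[atTop] fun X => X ^ c := isLittleO_log_rpow_atTop hc
    have h8 : Tendsto (fun X : ℝ => Real.log X / X ^ c) atTop (𝓝[>] 0) := by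
      rw [tendsto_nhdsWithin_iff]
      refine ⟨h7.tendsto_div_nhds_zero, ?_⟩
      filter_upwards [eventually_gt_atTop 1] with X hX
      have := Real.log_pos hX
      have : (0 : ℝ) < X ^ c := Real.rpow_pos_of_pos (by linarith) _
      show (0 : ℝ) < _
      positivity
    have h9 := h8.inv_tendsto_nhdsGT_zero
    refine h9.congr fun X => ?_
    rw [Pi.inv_apply, inv_div]
  refine tendsto_atTop_mono' _ ?_ h6
  filter_upwards [h, eventually_ge_atTop (3 : ℝ), loglog_tendsto.eventually (eventually_gt_atTop 0)]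
    with X h10 h11 h12
  have h13 : 0 < Real.log X := Real.log_pos (by linarith)
  have h14 : Real.log (Real.log X) ≤ Real.log X :=
    (Real.log_le_sub_one_of_pos h13).trans (by linarith)
  have h15 : X ^ c ≤ |(f X).re| := by
    have := Real.add_one_le_exp (X ^ c)
    linarith
  have h16 : 0 ≤ X ^ c := Real.rpow_nonneg (by linarith) _
  calc X ^ c / Real.log X ≤ X ^ c / Real.log (Real.log X) := by gcongr
    _ ≤ _ := by gcongr

variable {a b : 𝓞 K} {F : ℂ → ℂ}

theorem sys (a b : 𝓞 K) : Q5.RN.CSys (fun v : {v // TH942.ES.GoodV a b v} => H921R2.TatePole.nm v.1)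
    (TH942.ES.alV a b) :=
  Q5.RN.ofSys (TH942.ES.curve_sys a b)

theorem ext (h : IsLSeries a b F) :
    Q5.RN.Ext (fun v : {v // TH942.ES.GoodV a b v} => H921R2.TatePole.nm v.1)
      (TH942.ES.alV a b) F where
  mero := h.1
  prod := fun s hs => by
    have h1 := h.2 s hs
    refine h1.congr_fun fun v => ?_
    have h2 : TH942.ES.efV a b v.1 (1 + (s - 1)) =
        (1 - ((norm v.1 : ℂ) - pts a b v.1) * (norm v.1 : ℂ) ^ (-s) +
          (norm v.1 : ℂ) ^ (1 - 2 * s))⁻¹ := by
      rw [add_sub_cancel]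
      rfl
    exact (TH942.ES.curve_factor (a := a) (b := b) v (s - 1)).trans h2

theorem term_eq (τ X : ℝ) (v : {v : HeightOneSpectrum (𝓞 K) // Good a b v}) : term a b τ X v =
    Q5.RN.ccv (fun v : {v // TH942.ES.GoodV a b v} => H921R2.TatePole.nm v.1)
      (TH942.ES.alV a b) v * Q5.RN.wt τ (Real.log (H921R2.TatePole.nm v.1) / Real.log X) := by
  have h1 : Q5.RN.ccv (fun v : {v // TH942.ES.GoodV a b v} => H921R2.TatePole.nm v.1)
      (TH942.ES.alV a b) v = (Real.log (((pts a b v.1 : ℝ) + 1) / norm v.1) : ℂ) :=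
    (Q5.RN.ccv_ofSys (TH942.ES.curve_sys a b) v).trans
      (congrArg (fun x : ℝ => (x : ℂ)) (TH942.ES.curve_cv v))
  have h2 : Q5.RN.wt τ (Real.log (H921R2.TatePole.nm v.1) / Real.log X) =
      (Complex.Gamma (1 + (1 + τ * I) * (Real.log (norm v.1) / Real.log X)))⁻¹ := by
    unfold Q5.RN.wt Q5.RN.dir
    push_cast
    rfl
  unfold term
  rw [div_eq_mul_inv, ← h2, ← h1]

theorem W_eq (τ X : ℝ) : W a b τ X =
    Q5.RN.cmean (fun v : {v // TH942.ES.GoodV a b v} => H921R2.TatePole.nm v.1)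
      (TH942.ES.alV a b) τ (Real.log X) :=
  tsum_congr fun v => term_eq τ X v

/-- **A numerical form of the conjecture over number fields which is equivalent to its rank form.** -/
theorem result (K : Type) [Field K] [NumberField K] (a b : 𝓞 K) (_hΔ : 4 * a ^ 3 + 27 * b ^ 2 ≠ 0)
    (F : ℂ → ℂ) (hF : IsLSeries a b F) :
    (∀ τ X : ℝ, 1 < X → Summable fun v => ‖term a b τ X v‖) ∧
    (∀ B : ℝ, {τ : ℝ | |τ| ≤ B ∧ ¬ Free F τ}.Finite) ∧
    (∃ r : ℤ, meromorphicOrderAt F 1 = r ∧ ∀ τ : ℝ, Free F τ →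
      ∃ M : ℝ, ∀ᶠ X : ℝ in atTop, ‖W a b τ X - r * Real.log (Real.log X)‖ ≤ M) ∧
    (∀ τ : ℝ, ¬ Free F τ → ∃ (x : ℝ) (m : ℤ), 0 < x ∧ m ≠ 0 ∧
      meromorphicOrderAt F (1 + (1 + τ * I) * x) = m ∧
      (∀ y : ℝ, x < y → meromorphicOrderAt F (1 + (1 + τ * I) * y) = 0) ∧
      Tendsto (fun X : ℝ => W a b τ X / grow (x * Real.log X)) atTop (𝓝 m) ∧
      ∀ c < x, ∀ᶠ X : ℝ in atTop, Real.exp (X ^ c) ≤ |(W a b τ X).re|) ∧
    List.TFAE [
      meromorphicOrderAt F 1 = (rank a b : ℤ),
      ∃ (τ : ℝ) (X : ℕ → ℝ), Tendsto X atTop atTop ∧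
        Tendsto (fun n => (W a b τ (X n)).re / Real.log (Real.log (X n))) atTop (𝓝 (rank a b)),
      ∀ τ : ℝ, Free F τ →
        ∃ M : ℝ, ∀ᶠ X : ℝ in atTop, ‖W a b τ X - rank a b * Real.log (Real.log X)‖ ≤ M] := by
  have E := sys a b
  have h := ext hF
  have hfin : ∀ B : ℝ, {τ : ℝ | |τ| ≤ B ∧ ¬ Free F τ}.Finite := E.not_free_finite h
  obtain ⟨r, hr⟩ := E.exists_order h 1
  have hfree : ∀ τ : ℝ, Free F τ →
      ∃ M : ℝ, ∀ᶠ X : ℝ in atTop, ‖W a b τ X - r * Real.log (Real.log X)‖ ≤ M := by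
    intro τ hτ
    obtain ⟨M, hM⟩ := E.free h (τ := τ) hτ hr
    refine ⟨M, hM.mono fun X hX => ?_⟩
    rw [W_eq]
    exact hX
  have hblocked : ∀ τ : ℝ, ¬ Free F τ → ∃ (x : ℝ) (m : ℤ), 0 < x ∧ m ≠ 0 ∧
      meromorphicOrderAt F (1 + (1 + τ * I) * x) = m ∧
      (∀ y : ℝ, x < y → meromorphicOrderAt F (1 + (1 + τ * I) * y) = 0) ∧
      Tendsto (fun X : ℝ => W a b τ X / grow (x * Real.log X)) atTop (𝓝 m) ∧
      ∀ c < x, ∀ᶠ X : ℝ in atTop, Real.exp (X ^ c) ≤ |(W a b τ X).re| := by
    intro τ hτ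
    obtain ⟨x₀, h0, h1, hnz, hz⟩ := E.exists_last h τ
    obtain ⟨m, hm⟩ := E.exists_order h (1 + Q5.RN.dir τ * x₀)
    have hx0 : 0 < x₀ := by
      unfold Free at hτ
      push Not at hτ
      obtain ⟨y, hy, hyz⟩ := hτ
      by_contra hc
      exact hyz (hnz y (by linarith))
    have hm0 : m ≠ 0 := by
      rcases hz with h2 | h2
      · exact absurd h2 hx0.ne'
      · intro h3
        rw [h3] at hm
        exact h2 hm
    obtain ⟨h2, h3⟩ := E.blocked h τ hx0 h1 hm hm0 hnz
    simp only [W_eq]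
    exact ⟨x₀, m, hx0, hm0, hm, hnz, h2, h3⟩
  have hexists : ∃ τ : ℝ, Free F τ := by
    by_contra hc
    push Not at hc
    have h1 := hfin 1
    have h2 : {τ : ℝ | |τ| ≤ 1 ∧ ¬ Free F τ} = Set.Icc (-1) 1 := by
      ext τ
      simp only [Set.mem_ofPred_eq, Set.mem_Icc, ← abs_le]
      exact ⟨fun h => h.1, fun h => ⟨h, hc τ⟩⟩
    rw [h2] at h1
    exact (Set.Icc_infinite (by norm_num : (-1 : ℝ) < 1)) h1
  refine ⟨fun τ X hX => ?_, hfin, ⟨r, hr, hfree⟩, hblocked, ?_⟩
  · have := E.mean_summable τ (Real.log_pos hX)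
    simp only [term_eq]
    exact this
  tfae_have 1 → 3 := by
    intro h1 τ hτ
    have h2 : r = (rank a b : ℤ) := by
      rw [hr] at h1
      exact_mod_cast h1
    have h3 := hfree τ hτ
    rw [h2] at h3
    simpa using h3
  tfae_have 3 → 2 := by
    intro h1
    obtain ⟨τ, hτ⟩ := hexists
    obtain ⟨M, hM⟩ := h1 τ hτ
    refine ⟨τ, fun n => n, tendsto_natCast_atTop_atTop, ?_⟩
    have h2 := quot_of_bdd (f := W a b τ) (r := rank a b) (M := M) (by
      simpa using hM)
    exact h2.comp tendsto_natCast_atTop_atTop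
  tfae_have 2 → 1 := by
    rintro ⟨τ, X, hX, h1⟩
    by_cases hτ : Free F τ
    · obtain ⟨M, hM⟩ := hfree τ hτ
      have h2 := (quot_of_bdd (f := W a b τ) (r := r) (M := M) (by simpa using hM)).comp hX
      have h3 := tendsto_nhds_unique h2 h1
      rw [hr]
      have h4 : r = (rank a b : ℤ) := by exact_mod_cast h3
      rw [h4]
    · exfalso
      obtain ⟨x, m, hx, -, -, -, -, h2⟩ := hblocked τ hτ
      have h3 := (quot_of_big (half_pos hx) (h2 (x / 2) (by linarith))).comp hX
      have h4 := h1.abs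
      refine not_tendsto_nhds_of_tendsto_atTop h3 _ (h4.congr' ?_)
      filter_upwards [hX.eventually (loglog_tendsto.eventually (eventually_gt_atTop 0))] with n hn
      simp only [Function.comp_apply]
      rw [abs_div, abs_of_pos hn]
  tfae_finish

end Pool.Agent.Results.MP_cd906c_nt.NumericalRankForm
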